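import Pool.Agent.Y755.FK.Stm

/-!
# Project FK: Laplace transform of local sums (S_LAP) and expansions (S_LOC)
-/

set_option autoImplicit false

open Finset MeasureTheory Filter

namespace Pool.Agent.Y401.FK

open Pool.Agent.Y755.FK

/-! ### the weight -/

theorem phi_of_nonpos {v : ℝ} (hv : v ≤ 0) : φ v = 0 := by
  unfold φ
  split_ifs with h
  · have : v = 0 := le_antisymm hv h.1
    rw [this]; norm_num
  · rfl

theorem phi_of_one_le {v : ℝ} (hv : 1 ≤ v) : φ v = 0 := by
  unfold φ
  split_ifs with h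
  · have : v = 1 := le_antisymm h.2 hv
    rw [this]; norm_num
  · rfl

theorem phi_nonneg (v : ℝ) : 0 ≤ φ v := by
  unfold φ
  split_ifs
  · positivity
  · exact le_rfl

theorem phi_le_one (v : ℝ) : φ v ≤ 1 := by
  unfold φ
  split_ifs with h
  · have h1 : 0 ≤ v * (1 - v) := mul_nonneg h.1 (by linarith [h.2])
    have h2 : v * (1 - v) ≤ 1 := by nlinarith [h.1, h.2]
    exact pow_le_one₀ h1 h2
  · exact zero_le_one

theorem phi_eq_indicator (v : ℝ) : φ v = (Set.Ioc (0 : ℝ) 1).indicator (fun v => (v * (1 - v)) ^ 2) v := by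
  by_cases h : v ∈ Set.Ioc (0 : ℝ) 1
  · rw [Set.indicator_of_mem h]
    unfold φ
    rw [if_pos ⟨h.1.le, h.2⟩]
  · rw [Set.indicator_of_notMem h]
    rw [Set.mem_Ioc, not_and_or] at h
    rcases h with h | h
    · exact phi_of_nonpos (not_lt.1 h)
    · exact phi_of_one_le (not_le.1 h).le

theorem measurable_phi : Measurable φ := by
  have : φ = (Set.Ioc (0 : ℝ) 1).indicator (fun v => (v * (1 - v)) ^ 2) := funext phi_eq_indicator
  rw [this]
  exact (by fun_prop : Measurable fun v : ℝ => (v * (1 - v)) ^ 2).indicator measurableSet_Ioc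

theorem integrable_phi_exp (x : ℝ) : Integrable fun v => φ v * Real.exp (-(x * v)) := by
  have e : (fun v => φ v * Real.exp (-(x * v))) =
      (Set.Ioc (0 : ℝ) 1).indicator (fun v => (v * (1 - v)) ^ 2 * Real.exp (-(x * v))) := by
    funext v
    rw [phi_eq_indicator]
    by_cases h : v ∈ Set.Ioc (0 : ℝ) 1
    · rw [Set.indicator_of_mem h, Set.indicator_of_mem h]
    · rw [Set.indicator_of_notMem h, Set.indicator_of_notMem h, zero_mul]
  rw [e, integrable_indicator_iff measurableSet_Ioc]
  have hc : ContinuousOn (fun v : ℝ => (v * (1 - v)) ^ 2 * Real.exp (-(x * v))) (Set.Icc 0 1) := by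
    fun_prop
  exact hc.integrableOn_Icc.mono_set Set.Ioc_subset_Icc_self

theorem integral_phi_exp (x : ℝ) : ∫ v, φ v * Real.exp (-(x * v)) = Pr x := by
  have e : (fun v => φ v * Real.exp (-(x * v))) =
      (Set.Ioc (0 : ℝ) 1).indicator (fun v => (v * (1 - v)) ^ 2 * Real.exp (-x * v)) := by
    funext v
    rw [phi_eq_indicator]
    by_cases h : v ∈ Set.Ioc (0 : ℝ) 1
    · rw [Set.indicator_of_mem h, Set.indicator_of_mem h, neg_mul]
    · rw [Set.indicator_of_notMem h, Set.indicator_of_notMem h, zero_mul]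
  rw [e, integral_indicator measurableSet_Ioc]
  unfold Pr
  rw [intervalIntegral.integral_of_le zero_le_one]

theorem integral_phi_shift (x L : ℝ) (hL : 0 ≤ L) :
    IntegrableOn (fun u => φ (u - L) * Real.exp (-(x * u))) (Set.Ioi 0) ∧
    ∫ u in Set.Ioi (0 : ℝ), φ (u - L) * Real.exp (-(x * u)) = Real.exp (-(x * L)) * Pr x := by
  have e : (fun u => φ (u - L) * Real.exp (-(x * u))) =
      fun u => Real.exp (-(x * L)) * (φ (u - L) * Real.exp (-(x * (u - L)))) := by
    funext u
    have : Real.exp (-(x * u)) = Real.exp (-(x * L)) * Real.exp (-(x * (u - L))) := by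
      rw [← Real.exp_add]; congr 1; ring
    rw [this]; ring
  constructor
  · rw [e]
    exact (((integrable_phi_exp x).comp_sub_right L).const_mul _).integrableOn
  · rw [setIntegral_eq_integral_of_forall_compl_eq_zero]
    · rw [e, integral_const_mul]
      congr 1
      rw [← integral_phi_exp x]
      exact integral_sub_right_eq_self (fun v => φ v * Real.exp (-(x * v))) L
    · intro u hu
      have hu0 : u ≤ 0 := not_lt.1 hu
      rw [phi_of_nonpos (by linarith), zero_mul]

/-! ### the local sum as a series -/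

/-- the terms -/
noncomputable def FF (c : ℕ → ℝ) (k : ℕ) (u : ℝ) : ℝ :=
  if k = 0 then 0 else c k / k * φ (u - Real.log k)

theorem FF_eq_zero (c : ℕ → ℝ) {k : ℕ} {u : ℝ} (h : k ∉ Icc 1 ⌊Real.exp u⌋₊) : FF c k u = 0 := by
  unfold FF
  split_ifs with hk
  · rfl
  · rw [mem_Icc, not_and_or] at h
    rcases h with h | h
    · omega
    · have h1 : ⌊Real.exp u⌋₊ < k := not_le.1 h
      have h2 : Real.exp u < k := (Nat.floor_lt (Real.exp_pos u).le).1 h1
      have h3 : u < Real.log k := by
        rw [← Real.log_exp u]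
        exact Real.log_lt_log (Real.exp_pos u) h2
      rw [phi_of_nonpos (by linarith), mul_zero]

theorem LR_eq_sum (c : ℕ → ℝ) (u : ℝ) : LR c u = ∑ k ∈ Icc 1 ⌊Real.exp u⌋₊, FF c k u := by
  unfold LR
  refine Finset.sum_congr rfl fun k hk => ?_
  unfold FF
  rw [if_neg (by have := (mem_Icc.1 hk).1; omega)]

theorem LR_eq_tsum (c : ℕ → ℝ) (u : ℝ) : LR c u = ∑' k, FF c k u := by
  rw [LR_eq_sum]
  exact (tsum_eq_sum fun k hk => FF_eq_zero c hk).symm

theorem LR_hasSum (c : ℕ → ℝ) (u : ℝ) : HasSum (fun k => FF c k u) (LR c u) := by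
  rw [LR_eq_sum]
  exact hasSum_sum_of_ne_finset_zero fun k hk => FF_eq_zero c hk

theorem measurable_FF (c : ℕ → ℝ) (k : ℕ) : Measurable (FF c k) := by
  unfold FF
  split_ifs
  · exact measurable_const
  · exact (measurable_phi.comp (measurable_id.sub_const _)).const_mul _

theorem measurable_LR (c : ℕ → ℝ) : Measurable (LR c) := by
  have h : ∀ n : ℕ, Measurable fun u => ∑ k ∈ range n, FF c k u := fun n =>
    Finset.measurable_sum _ fun k _ => measurable_FF c k
  refine measurable_of_tendsto_metrizable h ?_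
  rw [tendsto_pi_nhds]
  intro u
  exact (LR_hasSum c u).tendsto_sum_nat

theorem FF_integral (c : ℕ → ℝ) (k : ℕ) (x : ℝ) :
    IntegrableOn (fun u => FF c k u * Real.exp (-(x * u))) (Set.Ioi 0) ∧
    ∫ u in Set.Ioi (0 : ℝ), FF c k u * Real.exp (-(x * u)) =
      Pr x * (if k = 0 then 0 else c k * (k : ℝ) ^ (-(1 + x))) := by
  by_cases hk : k = 0
  · subst hk
    simp [FF]
  · have hk1 : (1 : ℝ) ≤ k := by exact_mod_cast Nat.one_le_iff_ne_zero.2 hk
    have hk0 : (0 : ℝ) < k := by linarith
    obtain ⟨h1, h2⟩ := integral_phi_shift x (Real.log k) (Real.log_nonneg hk1)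
    have e : (fun u => FF c k u * Real.exp (-(x * u))) =
        fun u => c k / k * (φ (u - Real.log k) * Real.exp (-(x * u))) := by
      funext u
      unfold FF
      rw [if_neg hk]; ring
    rw [e, if_neg hk]
    constructor
    · exact h1.const_mul _
    · rw [integral_const_mul, h2]
      have h3 : Real.exp (-(x * Real.log k)) = (k : ℝ) ^ (-x) := by
        rw [Real.rpow_def_of_pos hk0]; congr 1; ring
      have h4 : (k : ℝ) ^ (-(1 + x)) = (k : ℝ)⁻¹ * (k : ℝ) ^ (-x) := by
        rw [show -(1 + x) = -1 + -x by ring, Real.rpow_add hk0, Real.rpow_neg_one]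
      rw [h3, h4]
      field_simp

theorem FF_norm (c : ℕ → ℝ) (k : ℕ) (x u : ℝ) : ‖FF c k u * Real.exp (-(x * u))‖ =
    FF (fun k => |c k|) k u * Real.exp (-(x * u)) := by
  rw [Real.norm_eq_abs, abs_mul, abs_of_pos (Real.exp_pos _)]
  congr 1
  unfold FF
  split_ifs
  · simp
  · rw [abs_mul, abs_of_nonneg (phi_nonneg _), abs_div, Nat.abs_cast]

theorem t_LAP : S_LAP := by
  intro c hc
  refine ⟨measurable_LR c, fun x hx => ?_⟩
  have hint : ∀ k, Integrable (fun u => FF c k u * Real.exp (-(x * u)))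
      (volume.restrict (Set.Ioi 0)) := fun k => (FF_integral c k x).1
  have hnorm : ∀ k, ∫ u in Set.Ioi (0 : ℝ), ‖FF c k u * Real.exp (-(x * u))‖ =
      Pr x * (if k = 0 then 0 else |c k| * (k : ℝ) ^ (-(1 + x))) := by
    intro k
    simp only [FF_norm]
    exact (FF_integral (fun k => |c k|) k x).2
  have hsum : Summable fun k => ∫ u in Set.Ioi (0 : ℝ), ‖FF c k u * Real.exp (-(x * u))‖ := by
    simp only [hnorm]
    exact (hc x hx).mul_left _
  have htsum : ∀ u, ∑' k, FF c k u * Real.exp (-(x * u)) = LR c u * Real.exp (-(x * u)) := by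
    intro u
    exact ((LR_hasSum c u).mul_right _).tsum_eq
  constructor
  · refine ⟨((measurable_LR c).mul (by fun_prop)).aestronglyMeasurable, ?_⟩
    unfold HasFiniteIntegral
    have hb : ∀ u, ‖LR c u * Real.exp (-(x * u))‖ₑ ≤ ∑' k, ‖FF c k u * Real.exp (-(x * u))‖ₑ := by
      intro u
      rw [← htsum u]
      exact enorm_tsum_le_tsum_enorm
    refine (lintegral_mono hb).trans_lt ?_
    rw [lintegral_tsum fun k => (hint k).1.enorm]
    have he : ∀ k, ∫⁻ u in Set.Ioi (0 : ℝ), ‖FF c k u * Real.exp (-(x * u))‖ₑ =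
        ENNReal.ofReal (∫ u in Set.Ioi (0 : ℝ), ‖FF c k u * Real.exp (-(x * u))‖) := by
      intro k
      exact (ofReal_integral_norm_eq_lintegral_enorm (hint k)).symm
    simp only [he]
    exact hsum.tsum_ofReal_lt_top
  · have h := hasSum_integral_of_summable_integral_norm hint hsum
    simp only [htsum] at h
    rw [← h.tsum_eq]
    simp only [(FF_integral c _ x).2]
    rw [tsum_mul_left]
    rfl

end Pool.Agent.Y401.FK

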