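import Pool.Agent.Y401.FK.Lap

/-!
# Project FK: decay of the local sums gives an expansion (S_LOC)
-/

set_option autoImplicit false

open Finset MeasureTheory Filter

namespace Pool.Agent.Y401.FK

open Pool.Agent.Y755.FK

/-- Taylor polynomial of `exp (-y)` -/
theorem exp_taylor (n : ℕ) {y : ℝ} (hy : 0 ≤ y) :
    |Real.exp (-y) - ∑ j ∈ range n, (-y) ^ j / (j.factorial : ℝ)| ≤ (n + 3) * y ^ n := by
  rcases le_total y 1 with h | h
  · have h1 := Complex.norm_exp_sub_sum_le_norm_mul_exp ((-y : ℝ) : ℂ) n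
    have e : Complex.exp ((-y : ℝ) : ℂ) - ∑ m ∈ range n, ((-y : ℝ) : ℂ) ^ m / (m.factorial : ℂ) =
        ((Real.exp (-y) - ∑ j ∈ range n, (-y) ^ j / (j.factorial : ℝ) : ℝ) : ℂ) := by
      push_cast; rfl
    rw [e, Complex.norm_real, Complex.norm_real, Real.norm_eq_abs, Real.norm_eq_abs, abs_neg,
      abs_of_nonneg hy] at h1
    refine h1.trans ?_
    have h2 : Real.exp y ≤ 3 :=
      (Real.exp_le_exp.2 h).trans Real.exp_one_lt_three.le
    have h3 : 0 ≤ y ^ n := pow_nonneg hy n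
    have h4 : (0 : ℝ) ≤ n := Nat.cast_nonneg n
    nlinarith
  · have h1 : |Real.exp (-y)| ≤ y ^ n := by
      rw [abs_of_pos (Real.exp_pos _)]
      exact (Real.exp_le_one_iff.2 (by linarith)).trans (one_le_pow₀ h)
    have h2 : |∑ j ∈ range n, (-y) ^ j / (j.factorial : ℝ)| ≤ n * y ^ n := by
      refine (Finset.abs_sum_le_sum_abs _ _).trans ?_
      calc ∑ j ∈ range n, |(-y) ^ j / (j.factorial : ℝ)| ≤ ∑ j ∈ range n, y ^ n := by
            apply Finset.sum_le_sum
            intro j hj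
            rw [abs_div, abs_pow, abs_neg, abs_of_nonneg hy, Nat.abs_cast]
            have h3 : (1 : ℝ) ≤ j.factorial := by exact_mod_cast Nat.one_le_iff_ne_zero.2 j.factorial_ne_zero
            refine (div_le_self (pow_nonneg hy j) h3).trans ?_
            exact pow_le_pow_right₀ h (mem_range.1 hj).le
        _ = n * y ^ n := by simp
    have h3 := abs_sub (Real.exp (-y)) (∑ j ∈ range n, (-y) ^ j / (j.factorial : ℝ))
    have h4 : 0 ≤ y ^ n := pow_nonneg hy n
    nlinarith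

/-- moments -/
theorem moment_integrable (h : ℝ → ℝ) (hm : Measurable h) (M : ℝ)
    (hM : ∀ u : ℝ, 0 < u → u ≤ 1 → |h u| ≤ M)
    (hA : ∀ A : ℕ, ∃ C : ℝ, ∀ u : ℝ, 1 ≤ u → |h u| ≤ C / u ^ A) (j : ℕ) :
    IntegrableOn (fun u => u ^ j * h u) (Set.Ioi 0) := by
  have hmeas : Measurable fun u : ℝ => u ^ j * h u := (measurable_id.pow_const j).mul hm
  rw [← Set.Ioc_union_Ioi_eq_Ioi (zero_le_one' ℝ)]
  apply IntegrableOn.union
  · apply Integrable.mono' (g := fun _ => M) (integrable_const _) hmeas.aestronglyMeasurable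
    refine (ae_restrict_iff' measurableSet_Ioc).2 (Eventually.of_forall fun u hu => ?_)
    rw [Real.norm_eq_abs, abs_mul, abs_of_nonneg (pow_nonneg hu.1.le j)]
    have h1 : u ^ j ≤ 1 := pow_le_one₀ hu.1.le hu.2
    have h2 := hM u hu.1 hu.2
    calc u ^ j * |h u| ≤ 1 * |h u| := mul_le_mul_of_nonneg_right h1 (abs_nonneg _)
      _ ≤ M := by rw [one_mul]; exact h2
  · obtain ⟨C, hC⟩ := hA (j + 2)
    have hint : IntegrableOn (fun u : ℝ => C * u ^ (-2 : ℝ)) (Set.Ioi 1) :=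
      (integrableOn_Ioi_rpow_of_lt (by norm_num) one_pos).const_mul C
    apply Integrable.mono' hint hmeas.aestronglyMeasurable
    refine (ae_restrict_iff' measurableSet_Ioi).2 (Eventually.of_forall fun u hu => ?_)
    have hu1 : (1 : ℝ) < u := hu
    have hu0 : 0 < u := by linarith
    rw [Real.norm_eq_abs, abs_mul, abs_of_nonneg (pow_nonneg hu0.le j)]
    calc u ^ j * |h u| ≤ u ^ j * (C / u ^ (j + 2)) :=
          mul_le_mul_of_nonneg_left (hC u hu1.le) (pow_nonneg hu0.le j)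
      _ = C * u ^ (-2 : ℝ) := by
          rw [Real.rpow_neg hu0.le, pow_add]
          have : u ^ (2 : ℝ) = u ^ (2 : ℕ) := Real.rpow_natCast u 2
          rw [this]
          field_simp

theorem EL (h : ℝ → ℝ) (hm : Measurable h) (M : ℝ)
    (hM : ∀ u : ℝ, 0 < u → u ≤ 1 → |h u| ≤ M)
    (hA : ∀ A : ℕ, ∃ C : ℝ, ∀ u : ℝ, 1 ≤ u → |h u| ≤ C / u ^ A) :
    EE fun x => ∫ u in Set.Ioi (0 : ℝ), h u * Real.exp (-(x * u)) := by
  have hmom := moment_integrable h hm M hM hA
  intro n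
  refine ⟨∑ j ∈ range n, Polynomial.C ((-1) ^ j / (j.factorial : ℝ) *
      ∫ u in Set.Ioi (0 : ℝ), u ^ j * h u) * Polynomial.X ^ j,
    (n + 3) * ∫ u in Set.Ioi (0 : ℝ), |u ^ n * h u|, fun x hx hx1 => ?_⟩
  have hexp : IntegrableOn (fun u => h u * Real.exp (-(x * u))) (Set.Ioi 0) := by
    have h0 := hmom 0
    simp only [pow_zero, one_mul] at h0
    apply Integrable.mono' h0.abs (hm.mul (by fun_prop)).aestronglyMeasurable
    refine (ae_restrict_iff' measurableSet_Ioi).2 (Eventually.of_forall fun u hu => ?_)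
    have hu0 : (0 : ℝ) < u := hu
    show ‖h u * Real.exp (-(x * u))‖ ≤ |h u|
    rw [Real.norm_eq_abs, abs_mul, abs_of_pos (Real.exp_pos _)]
    have : Real.exp (-(x * u)) ≤ 1 := Real.exp_le_one_iff.2 (by nlinarith)
    calc |h u| * Real.exp (-(x * u)) ≤ |h u| * 1 := mul_le_mul_of_nonneg_left this (abs_nonneg _)
      _ = |h u| := mul_one _
  have hpoly : (∑ j ∈ range n, Polynomial.C ((-1) ^ j / (j.factorial : ℝ) *
      ∫ u in Set.Ioi (0 : ℝ), u ^ j * h u) * Polynomial.X ^ j : Polynomial ℝ).eval x =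
      ∫ u in Set.Ioi (0 : ℝ), h u * ∑ j ∈ range n, (-(x * u)) ^ j / (j.factorial : ℝ) := by
    have e : ∀ u, h u * ∑ j ∈ range n, (-(x * u)) ^ j / (j.factorial : ℝ) =
        ∑ j ∈ range n, ((-1) ^ j / (j.factorial : ℝ) * x ^ j) * (u ^ j * h u) := by
      intro u
      rw [mul_sum]
      refine Finset.sum_congr rfl fun j _ => ?_
      rw [neg_pow, mul_pow]; ring
    simp only [e]
    rw [integral_finsetSum _ fun j _ => (hmom j).const_mul _, Polynomial.eval_finsetSum]
    refine Finset.sum_congr rfl fun j _ => ?_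
    rw [integral_const_mul, Polynomial.eval_mul, Polynomial.eval_C, Polynomial.eval_pow,
      Polynomial.eval_X]
    ring
  have hpint : IntegrableOn (fun u => h u * ∑ j ∈ range n, (-(x * u)) ^ j / (j.factorial : ℝ))
      (Set.Ioi 0) := by
    have e : (fun u => h u * ∑ j ∈ range n, (-(x * u)) ^ j / (j.factorial : ℝ)) =
        fun u => ∑ j ∈ range n, ((-1) ^ j / (j.factorial : ℝ) * x ^ j) * (u ^ j * h u) := by
      funext u
      rw [mul_sum]
      refine Finset.sum_congr rfl fun j _ => ?_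
      rw [neg_pow, mul_pow]; ring
    rw [e]
    exact integrable_finsetSum _ fun j _ => (hmom j).const_mul _
  show |(∫ u in Set.Ioi (0 : ℝ), h u * Real.exp (-(x * u))) - _| ≤ _
  rw [hpoly, ← integral_sub hexp hpint]
  have hb : ∀ u ∈ Set.Ioi (0 : ℝ), ‖h u * Real.exp (-(x * u)) -
      h u * ∑ j ∈ range n, (-(x * u)) ^ j / (j.factorial : ℝ)‖ ≤
      ((n + 3) * x ^ n) * |u ^ n * h u| := by
    intro u hu
    have hu0 : (0 : ℝ) < u := hu
    have h1 := exp_taylor n (y := x * u) (by positivity)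
    rw [← mul_sub, Real.norm_eq_abs, abs_mul, abs_mul, abs_of_nonneg (pow_nonneg hu0.le n)]
    calc |h u| * |Real.exp (-(x * u)) - ∑ j ∈ range n, (-(x * u)) ^ j / (j.factorial : ℝ)| ≤
        |h u| * ((n + 3) * (x * u) ^ n) := mul_le_mul_of_nonneg_left h1 (abs_nonneg _)
      _ = ((n + 3) * x ^ n) * (u ^ n * |h u|) := by rw [mul_pow]; ring
  have hfin := norm_integral_le_integral_norm (μ := volume.restrict (Set.Ioi (0 : ℝ)))
    (fun u => h u * Real.exp (-(x * u)) - h u * ∑ j ∈ range n, (-(x * u)) ^ j / (j.factorial : ℝ))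
  rw [Real.norm_eq_abs] at hfin
  refine hfin.trans ?_
  have h2 : ∫ u in Set.Ioi (0 : ℝ), ‖h u * Real.exp (-(x * u)) -
      h u * ∑ j ∈ range n, (-(x * u)) ^ j / (j.factorial : ℝ)‖ ≤
      ∫ u in Set.Ioi (0 : ℝ), ((n + 3) * x ^ n) * |u ^ n * h u| :=
    setIntegral_mono_on (hexp.sub hpint).norm ((hmom n).abs.const_mul _) measurableSet_Ioi hb
  refine h2.trans (le_of_eq ?_)
  rw [integral_const_mul]
  ring

theorem LR_bound (c : ℕ → ℝ) (u : ℝ) (hu : u ≤ 1) : |LR c u| ≤ |c 1| + |c 2| := by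
  rw [LR_eq_sum]
  have hfl : ⌊Real.exp u⌋₊ ≤ 2 := by
    have h1 : Real.exp u < 3 := (Real.exp_le_exp.2 hu).trans_lt Real.exp_one_lt_three
    have h2 : ⌊Real.exp u⌋₊ < 3 := by
      rw [Nat.floor_lt (Real.exp_pos u).le]; exact_mod_cast h1
    omega
  have hterm : ∀ k ∈ Icc 1 ⌊Real.exp u⌋₊, |FF c k u| ≤ |c k| := by
    intro k hk
    have hk1 : 1 ≤ k := (mem_Icc.1 hk).1
    unfold FF
    rw [if_neg (by omega), abs_mul, abs_of_nonneg (phi_nonneg _), abs_div, Nat.abs_cast]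
    have h1 : (1 : ℝ) ≤ k := by exact_mod_cast hk1
    have h2 : |c k| / (k : ℝ) ≤ |c k| := div_le_self (abs_nonneg _) h1
    have h3 := phi_le_one (u - Real.log k)
    have h4 := phi_nonneg (u - Real.log k)
    calc |c k| / (k : ℝ) * φ (u - Real.log k) ≤ |c k| * 1 :=
          mul_le_mul h2 h3 h4 (abs_nonneg _)
      _ = |c k| := mul_one _
  refine (Finset.abs_sum_le_sum_abs _ _).trans ((Finset.sum_le_sum hterm).trans ?_)
  calc ∑ k ∈ Icc 1 ⌊Real.exp u⌋₊, |c k| ≤ ∑ k ∈ Icc 1 2, |c k| := by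
        apply Finset.sum_le_sum_of_subset_of_nonneg
        · exact Finset.Icc_subset_Icc_right hfl
        · intro k _ _; exact abs_nonneg _
    _ = |c 1| + |c 2| := by
        rw [Finset.sum_Icc_succ_top (by norm_num)]
        simp

theorem t_LOC : S_LOC := by
  intro hE hLap c hc hdec
  obtain ⟨hmeas, hL⟩ := hLap c hc
  have e1 : EE fun x => ∫ u in Set.Ioi (0 : ℝ), LR c u * Real.exp (-(x * u)) :=
    EL (LR c) hmeas (|c 1| + |c 2|) (fun u _ hu => LR_bound c u hu) hdec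
  have e2 : EE fun x => ∫ u in Set.Ioi (0 : ℝ), φ u * Real.exp (-(x * u)) :=
    EL φ measurable_phi 1 (fun u _ _ => by
      rw [abs_of_nonneg (phi_nonneg u)]; exact phi_le_one u)
      (fun A => ⟨0, fun u hu => by rw [phi_of_one_le hu]; simp⟩)
  have hPr : ∀ x : ℝ, ∫ u in Set.Ioi (0 : ℝ), φ u * Real.exp (-(x * u)) = Pr x := by
    intro x
    have h := (integral_phi_shift x 0 le_rfl).2
    simpa using h
  have hlow : ∃ c0 : ℝ, 0 < c0 ∧ ∀ x : ℝ, 0 < x → x < 1 → c0 ≤ Pr x := by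
    refine ⟨∫ v in (0 : ℝ)..1, (v * (1 - v)) ^ 2 * Real.exp (-1), ?_, ?_⟩
    · apply intervalIntegral.intervalIntegral_pos_of_pos_on
      · exact (by fun_prop : Continuous fun v : ℝ => (v * (1 - v)) ^ 2 * Real.exp (-1)).intervalIntegrable _ _
      · intro v hv
        have h1 : 0 < v * (1 - v) := mul_pos hv.1 (by linarith [hv.2])
        positivity
      · exact one_pos
    · intro x hx hx1
      unfold Pr
      apply intervalIntegral.integral_mono_on zero_le_one
      · exact (by fun_prop : Continuous fun v : ℝ => (v * (1 - v)) ^ 2 * Real.exp (-1)).intervalIntegrable _ _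
      · exact (by fun_prop : Continuous fun v : ℝ => (v * (1 - v)) ^ 2 * Real.exp (-x * v)).intervalIntegrable _ _
      · intro v hv
        apply mul_le_mul_of_nonneg_left _ (by positivity)
        apply Real.exp_le_exp.2
        nlinarith [hv.1, hv.2]
  obtain ⟨c0, hc0, hc1⟩ := hlow
  have e3 := hE.div _ _ e1 e2 ⟨c0, hc0, fun x hx hx1 => by
    rw [hPr]
    exact (hc1 x hx hx1).trans (le_abs_self _)⟩
  refine hE.congr _ _ e3 fun x hx hx1 => ?_
  show (∫ u in Set.Ioi (0 : ℝ), LR c u * Real.exp (-(x * u))) /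
    (∫ u in Set.Ioi (0 : ℝ), φ u * Real.exp (-(x * u))) = DS c x
  rw [hPr, (hL x hx).2]
  have : Pr x ≠ 0 := by
    have := hc1 x hx hx1
    linarith
  field_simp

end Pool.Agent.Y401.FK

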